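import Mathlib
import Pool.Agent.U37.MQ.Stm

/-!
Project MQ (helper37), package LINK: the involutions of a pair of circles of an inversive plane.
-/

set_option autoImplicit false

namespace Pool.Agent.U908.MQ

open Finset Equiv Pool.Agent.U37.MQ Pool.Agent.N606.ST Pool.Agent.U671.PG

open scoped Classical

variable {V : Type} [Fintype V] {n : ℕ} {B : Finset (Finset V)}

theorem link_swap {g k : Finset V} {x y A C : V} (h : Link B g k x y A C) :
    Link B k g A C x y := by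
  obtain ⟨b, hb, h1, h2⟩ := h
  exact ⟨b, hb, h2, h1⟩

theorem link_left {g k : Finset V} {x y A C : V} (h : Link B g k x y A C) :
    Link B g k y x A C := by
  obtain ⟨b, hb, h1, h2⟩ := h
  exact ⟨b, hb, by rw [h1, pair_comm], h2⟩

theorem link_right {g k : Finset V} {x y A C : V} (h : Link B g k x y A C) :
    Link B g k x y C A := by
  obtain ⟨b, hb, h1, h2⟩ := h
  exact ⟨b, hb, h1, by rw [h2, pair_comm]⟩

theorem e0 (hI : Inc n B) {g : Finset V} (hg : g ∈ B) {x y A : V} (hx : x ∈ g) (hy : y ∈ g)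
    (hA : A ∉ g) : ∃ b ∈ B, A ∈ b ∧ b ∩ g = {x, y} := by
  by_cases hxy : x = y
  · subst hxy
    obtain ⟨b, hb, h1, h2⟩ := hI.touch g hg x hx A hA
    exact ⟨b, hb, h1, by rw [h2, pair_eq_singleton]⟩
  · have hxA : x ≠ A := fun e => hA (e ▸ hx)
    have hyA : y ≠ A := fun e => hA (e ▸ hy)
    obtain ⟨b, hb, h1, h2, h3⟩ := hI.ex3 x y A hxy hxA hyA
    have hbg : b ≠ g := fun e => hA (e ▸ h3)
    refine ⟨b, hb, h3, ?_⟩
    symm
    apply eq_of_subset_of_card_le
    · intro z hz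
      rw [mem_insert, mem_singleton] at hz
      rcases hz with rfl | rfl
      · exact mem_inter.2 ⟨h1, hx⟩
      · exact mem_inter.2 ⟨h2, hy⟩
    · rw [card_pair hxy]
      exact hI.two b hb g hg hbg

theorem u0 (hI : Inc n B) {g : Finset V} (hg : g ∈ B) {x y A : V} (hx : x ∈ g) (hy : y ∈ g)
    (hA : A ∉ g) {b b' : Finset V} (hb : b ∈ B) (hb' : b' ∈ B) (h1 : A ∈ b) (h1' : A ∈ b')
    (h2 : b ∩ g = {x, y}) (h2' : b' ∩ g = {x, y}) : b = b' := by
  by_cases hxy : x = y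
  · subst hxy
    rw [pair_eq_singleton] at h2 h2'
    exact hI.touch_eq g hg x hx A hA b hb b' hb' h1 h2 h1' h2'
  · have hxA : x ≠ A := fun e => hA (e ▸ hx)
    have hyA : y ≠ A := fun e => hA (e ▸ hy)
    have k1 : x ∈ b ∩ g := by rw [h2]; simp
    have k2 : y ∈ b ∩ g := by rw [h2]; simp
    have k3 : x ∈ b' ∩ g := by rw [h2']; simp
    have k4 : y ∈ b' ∩ g := by rw [h2']; simp
    rw [mem_inter] at k1 k2 k3 k4
    exact hI.eq3 x y A hxy hxA hyA b hb b' hb' k1.1 k2.1 h1 k3.1 k4.1 h1'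

theorem exL (hI : Inc n B) {g k : Finset V} (hg : g ∈ B) (hk : k ∈ B) {x y A : V}
    (hx : x ∈ g) (hxk : x ∉ k) (hy : y ∈ g) (hyk : y ∉ k) (hA : A ∈ k) (hAg : A ∉ g) :
    ∃ C, (C ∈ k ∧ C ∉ g) ∧ Link B g k x y A C := by
  obtain ⟨b, hb, h1, h2⟩ := e0 hI hg hx hy hAg
  have hxb : x ∈ b := by
    have : x ∈ b ∩ g := by rw [h2]; simp
    exact (mem_inter.1 this).1
  have hbk : b ≠ k := fun e => hxk (e ▸ hxb)
  have hCg : ∀ C, C ∈ b → C ∈ k → C ∉ g := by
    intro C hCb hCk hCg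
    have : C ∈ b ∩ g := mem_inter.2 ⟨hCb, hCg⟩
    rw [h2, mem_insert, mem_singleton] at this
    rcases this with rfl | rfl
    · exact hxk hCk
    · exact hyk hCk
  by_cases hC : ∃ C ∈ b ∩ k, C ≠ A
  · obtain ⟨C, hC, hCA⟩ := hC
    have hC' := mem_inter.1 hC
    refine ⟨C, ⟨hC'.2, hCg C hC'.1 hC'.2⟩, b, hb, h2, ?_⟩
    symm
    apply eq_of_subset_of_card_le
    · intro z hz
      rw [mem_insert, mem_singleton] at hz
      rcases hz with rfl | rfl
      · exact mem_inter.2 ⟨h1, hA⟩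
      · exact hC
    · rw [card_pair hCA.symm]
      exact hI.two b hb k hk hbk
  · push Not at hC
    refine ⟨A, ⟨hA, hAg⟩, b, hb, h2, ?_⟩
    ext z
    rw [pair_eq_singleton, mem_singleton]
    constructor
    · exact hC z
    · rintro rfl
      exact mem_inter.2 ⟨h1, hA⟩

theorem uniL (hI : Inc n B) {g k : Finset V} (hg : g ∈ B) {x y A C C' : V}
    (hx : x ∈ g) (hy : y ∈ g) (hAg : A ∉ g)
    (h : Link B g k x y A C) (h' : Link B g k x y A C') : C = C' := by
  obtain ⟨b, hb, h1, h2⟩ := h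
  obtain ⟨b', hb', h1', h2'⟩ := h'
  have k1 : A ∈ b ∩ k := by rw [h2]; simp
  have k2 : A ∈ b' ∩ k := by rw [h2']; simp
  rw [mem_inter] at k1 k2
  have hbb := u0 hI hg hx hy hAg hb hb' k1.1 k2.1 h1 h1'
  rw [hbb, h2'] at h2
  have h3 : C ∈ ({A, C'} : Finset V) := by rw [h2]; simp
  have h4 : C' ∈ ({A, C} : Finset V) := by rw [← h2]; simp
  rw [mem_insert, mem_singleton] at h3 h4
  rcases h3 with h3 | h3
  · rcases h4 with h4 | h4
    · rw [h3, h4]
    · exact h4.symm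
  · exact h3

theorem t_LINK : Pool.Agent.U37.MQ.S_LINK := by
  intro V _ n B _ hI g hg k hk _
  have h1 : ∀ x y : {x : V // x ∈ g ∧ x ∉ k}, ∀ A : {y : V // y ∈ k ∧ y ∉ g},
      ∃ C : {y : V // y ∈ k ∧ y ∉ g}, Link B g k (x : V) (y : V) (A : V) (C : V) := by
    intro x y A
    obtain ⟨C, hC, h⟩ := exL hI hg hk x.2.1 x.2.2 y.2.1 y.2.2 A.2.1 A.2.2
    exact ⟨⟨C, hC⟩, h⟩
  choose f hf using h1
  have huni : ∀ (x y : {x : V // x ∈ g ∧ x ∉ k}) (A C C' : {y : V // y ∈ k ∧ y ∉ g}),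
      Link B g k (x : V) (y : V) (A : V) (C : V) → Link B g k (x : V) (y : V) (A : V) (C' : V) →
        C = C' := fun x y A C C' h h' =>
    Subtype.ext (uniL hI hg x.2.1 y.2.1 A.2.2 h h')
  have hff : ∀ x y, Function.Involutive (f x y) := by
    intro x y A
    exact huni x y (f x y A) _ _ (hf x y (f x y A)) (link_right (hf x y A))
  have hiff : ∀ x y A C, (hff x y).toPerm (f x y) A = C ↔
      Link B g k (x : V) (y : V) (A : V) (C : V) := by
    intro x y A C
    show f x y A = C ↔ _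
    constructor
    · rintro rfl
      exact hf x y A
    · intro h
      exact huni x y A _ _ (hf x y A) h
  refine ⟨fun x y => (hff x y).toPerm (f x y), ?_, ?_, ?_, ?_, hiff⟩
  · intro x y
    ext A
    congr 1
    rw [hiff]
    exact link_left ((hiff y x A _).1 rfl)
  · intro x y
    ext A
    rw [Perm.mul_apply, Perm.one_apply]
    show ((f x y (f x y A) : {y : V // y ∈ k ∧ y ∉ g}) : V) = A
    rw [hff x y A]
  · intro A C x
    obtain ⟨y, hy, h⟩ := exL hI hk hg A.2.1 A.2.2 C.2.1 C.2.2 x.2.1 x.2.2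
    exact ⟨⟨y, hy⟩, (hiff _ _ _ _).2 (link_swap h)⟩
  · intro A x y y' h
    have h2 := (hiff x y A _).1 rfl
    have h3 := (hiff x y' A _).1 rfl
    rw [← h] at h3
    exact Subtype.ext (uniL hI hk A.2.1 ((hff x y).toPerm (f x y) A).2.1 x.2.2
      (link_swap h2) (link_swap h3))

end Pool.Agent.U908.MQ
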